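import Pool.Agent.Helper93.LCH.Stmts
import Pool.Agent.Helper93.LCH.Basic3

/-!
Row LFX of the LCH project (helper93, MP_b555a2_al): the leading form from the expansion.
-/

namespace LCH20

open LCH

universe u v w

theorem exists_eps {T : Finset ℝ} {P : ℝ → ℝ → Prop}
    (hP : ∀ r ε ε', ε' ≤ ε → P r ε → P r ε') (h : ∀ r ∈ T, ∃ ε : ℝ, 0 < ε ∧ P r ε) :
    ∃ ε : ℝ, 0 < ε ∧ ∀ r ∈ T, P r ε := by
  classical
  induction T using Finset.induction_on with
  | empty => exact ⟨1, one_pos, fun r hr => absurd hr (Finset.notMem_empty r)⟩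
  | insert a t ha ih =>
    obtain ⟨ε1, h1, h1'⟩ := ih (fun r hr => h r (Finset.mem_insert_of_mem hr))
    obtain ⟨ε2, h2, h2'⟩ := h a (Finset.mem_insert_self a t)
    refine ⟨min ε1 ε2, lt_min h1 h2, ?_⟩
    intro r hr
    rcases Finset.mem_insert.1 hr with rfl | hr
    · exact hP _ _ _ (min_le_right _ _) h2'
    · exact hP _ _ _ (min_le_left _ _) (h1' r hr)

theorem st_LFX (hHBD : ST_HBD.{u, v, w}) (hSPH : ST_SPH.{u, v}) : ST_LFX.{u, v, w} := by
  intro K _ G _ T _ X κ hIH e L χ ψ hLX hχ hψ hκ hnh hUE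
  obtain ⟨ε, hε, S, c, -, hc, -, hm, hE⟩ := hUE
  have hm' := hm hnh
  have hlt : ∀ r ∈ S, MSys.lt ((c r).meas T) κ := fun r hr => lt_of_lt_of_mle (hm' r hr) hκ
  have hpack : ∀ r ∈ S, Pack X (c r) := fun r hr =>
    hIH (c r) (fun g hg => hLX ((hc r hr).1 g hg)) (hlt r hr)
  have hHB : ∀ r ∈ S, HB (c r) L χ ψ := fun r hr =>
    hHBD K G T X κ hIH (c r) L χ ψ hLX hχ hψ (hc r hr).1 (mle_of_lt (hlt r hr))
  have hsub : ∀ r ∈ S, ∀ i : Idx L χ ψ, ∀ g ∈ (c r).supp, g ∈ i.s.M :=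
    fun r hr i g hg => i.at'.1 ((hc r hr).1 g hg)
  have hzero : ∀ r ∈ S, (c r).Z → (c r).evA L χ ψ = 0 := by
    intro r hr hZ
    funext i
    exact hZ i.s (hsub r hr i)
  set S1 : Set ℝ := {r ∈ S | ¬ (c r).Z} with hS1
  have hE1 : Expn (Phi K L χ ψ ε) (e.evA L χ ψ) S1 (fun r => (c r).evA L χ ψ) :=
    hE.drop (fun r hr => hr.1) (by
      intro r hr hr'
      apply hzero r hr
      by_contra hcon
      exact hr' ⟨hr, hcon⟩)
  rcases Set.eq_empty_or_nonempty S1 with he | hne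
  · left
    refine ⟨ε, hε, ?_⟩
    intro i hi
    apply fil_all i.at'.2.1 i.at'.2.2.1
    intro B
    have : e.evA L χ ψ ∈ (Phi K L χ ψ ε).F B := hE1.filt_of (by
      intro r hr
      rw [he] at hr
      exact hr.elim)
    exact this i hi
  · right
    obtain ⟨r0, hr0, hmin⟩ := hE1.exists_least (S' := S1) (fun r hr => hr) hne
    obtain ⟨m, hm0, hgap⟩ := hE1.gap r0
    have hN : (c r0).N := by
      rcases (hpack r0 hr0.1).1 with h | h
      · exact absurd h hr0.2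
      · exact h
    have hHBi : HB (.inv (c r0)) L χ ψ :=
      (hpack r0 hr0.1).2 L χ ψ hLX hχ hψ (hc r0 hr0.1).1
    have hHomi : (Ex.inv (c r0)).Hom χ (-r0) := by
      change (c r0).Hom χ (- -r0)
      rw [neg_neg]
      exact (hc r0 hr0.1).2
    obtain ⟨ε1, hε1, hu⟩ := hHBi.mem_Phi hHomi (b := -r0 - m / 4) (by linarith)
    have hEr := hE1.erase hr0
    obtain ⟨R, hR⟩ := hEr.growth (r0 + m / 2)
    obtain ⟨F, hF⟩ := hEr.exists_finset R
    obtain ⟨ε2, hε2, hfin⟩ : ∃ ε2 : ℝ, 0 < ε2 ∧ ∀ r ∈ F,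
        (c r).evA L χ ψ ∈ (Phi K L χ ψ ε2).F (r0 + m / 2) := by
      apply exists_eps
      · intro r a b hab h
        exact Phi_mono hab _ h
      · intro r hr
        have hr1 := ((hF r).1 hr).1
        have hr2 : r0 < r := lt_of_le_of_ne (hmin r hr1.1) (fun h => hr1.2 h.symm)
        have hr3 := hgap r hr1.1 hr2
        exact (hHB r hr1.1.1).mem_Phi (hc r hr1.1.1).2 (by linarith)
    have hrem : e.evA L χ ψ - (c r0).evA L χ ψ ∈
        (Phi K L χ ψ (min ε ε2)).F (r0 + m / 2) := by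
      have hEr' := hEr.mono_filt (Φ' := Phi K L χ ψ (min ε ε2))
        (fun B => Phi_mono (min_le_left _ _) B)
      apply hEr'.filt_of
      intro r hr
      rcases lt_or_ge r R with h | h
      · exact Phi_mono (min_le_right _ _) _ (hfin r ((hF r).2 ⟨hr, h⟩))
      · exact Phi_mono (min_le_left _ _) _ (hR r hr h)
    refine ⟨min (min ε ε2) ε1, m / 4, lt_min (lt_min hε hε2) hε1, by linarith, r0, c r0,
      (hc r0 hr0.1).1, (hc r0 hr0.1).2, hN, hHBi, ?_⟩
    intro i hi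
    have hunit : IsUnit ((c r0).ev i.s) :=
      hSPH K G i.s _ (hN i.s (hsub r0 hr0.1 i))
    have h1 : (Ex.inv (c r0)).ev i.s * (c r0).ev i.s = 1 := Ring.inverse_mul_cancel _ hunit
    have h2 : (Ex.inv (c r0)).ev i.s * e.ev i.s - 1
        = (Ex.inv (c r0)).ev i.s * (e.ev i.s - (c r0).ev i.s) := by
      have h6 := mul_sub ((Ex.inv (c r0)).ev i.s) (e.ev i.s) ((c r0).ev i.s)
      rw [h1] at h6
      exact h6.symm
    rw [h2]
    have h3 := hu i (lt_of_lt_of_le hi (min_le_right _ _))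
    have h4 := hrem i (lt_of_lt_of_le hi (min_le_left _ _))
    have h5 := h3.mul h4
    refine h5.anti ?_
    linarith

end LCH20
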