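import Pool.Agent.Helper93.LCH.Stmts

/-!
Row SKL of the LCH project (helper93, MP_b555a2_al): skew Laurent polynomials over a division
subring satisfy the left Ore condition.
-/

namespace LCH20

open LCH

universe w

section
variable {A : Type w} [Ring A] (D : Subring A) (τ : Aˣ)

/-- polynomials of degree less than `n` -/
noncomputable def U (n : ℕ) : Submodule D A :=
  Submodule.span D (Set.range fun i : Fin n => (τ : A) ^ (i : ℕ))

theorem smul_eq (d : D) (x : A) : d • x = (d : A) * x := rfl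

theorem mem_U_iff (n : ℕ) (x : A) :
    x ∈ U D τ n ↔ ∃ d : Fin n → A, (∀ i, d i ∈ D) ∧ x = ∑ i : Fin n, d i * (τ : A) ^ (i : ℕ) := by
  unfold U
  rw [Submodule.mem_span_range_iff_exists_fun]
  constructor
  · rintro ⟨c, hc⟩
    refine ⟨fun i => (c i : A), fun i => (c i).2, ?_⟩
    rw [← hc]
    rfl
  · rintro ⟨d, hd, rfl⟩
    exact ⟨fun i => ⟨d i, hd i⟩, rfl⟩

theorem U_mono {n m : ℕ} (h : n ≤ m) : U D τ n ≤ U D τ m := by
  unfold U
  apply Submodule.span_mono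
  rintro _ ⟨i, rfl⟩
  exact ⟨⟨i, lt_of_lt_of_le i.2 h⟩, rfl⟩

theorem pow_mem_U {i n : ℕ} (h : i < n) : (τ : A) ^ i ∈ U D τ n :=
  Submodule.subset_span ⟨⟨i, h⟩, rfl⟩

variable {D τ}

theorem pow_conj (h1 : ∀ x ∈ D, (τ : A) * x * ((τ⁻¹ : Aˣ) : A) ∈ D) (j : ℕ) :
    ∀ x ∈ D, (τ : A) ^ j * x * ((τ⁻¹ : Aˣ) : A) ^ j ∈ D := by
  induction j with
  | zero => intro x hx; simpa using hx
  | succ j ih =>
    intro x hx
    have := h1 _ (ih x hx)
    have e : (τ : A) * ((τ : A) ^ j * x * ((τ⁻¹ : Aˣ) : A) ^ j) * ((τ⁻¹ : Aˣ) : A)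
        = (τ : A) ^ (j + 1) * x * ((τ⁻¹ : Aˣ) : A) ^ (j + 1) := by
      rw [pow_succ' (τ : A), pow_succ ((τ⁻¹ : Aˣ) : A)]
      simp only [mul_assoc]
    rw [e] at this
    exact this

theorem pow_conj' (h1 : ∀ x ∈ D, ((τ⁻¹ : Aˣ) : A) * x * (τ : A) ∈ D) (j : ℕ) :
    ∀ x ∈ D, ((τ⁻¹ : Aˣ) : A) ^ j * x * (τ : A) ^ j ∈ D := by
  have h2 : ∀ x ∈ D, ((τ⁻¹ : Aˣ) : A) * x * (((τ⁻¹)⁻¹ : Aˣ) : A) ∈ D := by
    rw [inv_inv]; exact h1
  have := pow_conj h2 j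
  rw [inv_inv] at this
  exact this

theorem inv_pow_mul_pow (j : ℕ) : ((τ⁻¹ : Aˣ) : A) ^ j * (τ : A) ^ j = 1 := by
  rw [← Units.val_pow_eq_pow_val, ← Units.val_pow_eq_pow_val, ← Units.val_mul, inv_pow,
    inv_mul_cancel, Units.val_one]

theorem pow_mul_inv_pow (j : ℕ) : (τ : A) ^ j * ((τ⁻¹ : Aˣ) : A) ^ j = 1 := by
  rw [← Units.val_pow_eq_pow_val, ← Units.val_pow_eq_pow_val, ← Units.val_mul, inv_pow,
    mul_inv_cancel, Units.val_one]

theorem pow_mul_U (h1 : ∀ x ∈ D, (τ : A) * x * ((τ⁻¹ : Aˣ) : A) ∈ D) (j n : ℕ) (x : A)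
    (hx : x ∈ U D τ n) : (τ : A) ^ j * x ∈ U D τ (n + j) := by
  unfold U at hx
  induction hx using Submodule.span_induction with
  | mem x hx =>
    obtain ⟨i, rfl⟩ := hx
    change (τ : A) ^ j * (τ : A) ^ (i : ℕ) ∈ U D τ (n + j)
    rw [← pow_add]
    apply pow_mem_U
    have := i.2
    omega
  | zero => rw [mul_zero]; exact Submodule.zero_mem _
  | add x y _ _ hx hy => rw [mul_add]; exact Submodule.add_mem _ hx hy
  | smul d x _ hx =>
    have e : (τ : A) ^ j * (d • x)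
        = (⟨(τ : A) ^ j * d * ((τ⁻¹ : Aˣ) : A) ^ j, pow_conj h1 j d d.2⟩ : D) • ((τ : A) ^ j * x) := by
      rw [smul_eq, smul_eq]
      change _ = (τ : A) ^ j * d * ((τ⁻¹ : Aˣ) : A) ^ j * ((τ : A) ^ j * x)
      rw [mul_assoc ((τ : A) ^ j * (d : A)), ← mul_assoc (((τ⁻¹ : Aˣ) : A) ^ j),
        inv_pow_mul_pow, one_mul, mul_assoc]
    rw [e]
    exact Submodule.smul_mem _ _ hx

theorem mul_U (h1 : ∀ x ∈ D, (τ : A) * x * ((τ⁻¹ : Aˣ) : A) ∈ D) (n m : ℕ) (x y : A)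
    (hx : x ∈ U D τ n) (hy : y ∈ U D τ m) : x * y ∈ U D τ (n + m) := by
  unfold U at hx
  induction hx using Submodule.span_induction with
  | mem x hx =>
    obtain ⟨i, rfl⟩ := hx
    apply U_mono D τ (n := m + (i : ℕ)) _ (pow_mul_U h1 i m y hy)
    have := i.2
    omega
  | zero => rw [zero_mul]; exact Submodule.zero_mem _
  | add x y _ _ hx hy => rw [add_mul]; exact Submodule.add_mem _ hx hy
  | smul d x _ hx =>
    have e : (d • x) * y = d • (x * y) := by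
      rw [smul_eq, smul_eq, mul_assoc]
    rw [e]
    exact Submodule.smul_mem _ _ hx

theorem conj_U (h1 : ∀ x ∈ D, ((τ⁻¹ : Aˣ) : A) * x * (τ : A) ∈ D) (k n : ℕ) (x : A)
    (hx : x ∈ U D τ n) : ((τ⁻¹ : Aˣ) : A) ^ k * x * (τ : A) ^ k ∈ U D τ n := by
  unfold U at hx
  induction hx using Submodule.span_induction with
  | mem x hx =>
    obtain ⟨i, rfl⟩ := hx
    have e : ((τ⁻¹ : Aˣ) : A) ^ k * (τ : A) ^ (i : ℕ) * (τ : A) ^ k = (τ : A) ^ (i : ℕ) := by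
      rw [mul_assoc, ← pow_add, add_comm, pow_add, ← mul_assoc, inv_pow_mul_pow, one_mul]
    change ((τ⁻¹ : Aˣ) : A) ^ k * (τ : A) ^ (i : ℕ) * (τ : A) ^ k ∈ _
    rw [e]
    exact pow_mem_U D τ i.2
  | zero => rw [mul_zero, zero_mul]; exact Submodule.zero_mem _
  | add x y _ _ hx hy => rw [mul_add, add_mul]; exact Submodule.add_mem _ hx hy
  | smul d x _ hx =>
    have e : ((τ⁻¹ : Aˣ) : A) ^ k * (d • x) * (τ : A) ^ k
        = (⟨((τ⁻¹ : Aˣ) : A) ^ k * d * (τ : A) ^ k, pow_conj' h1 k d d.2⟩ : D) •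
          (((τ⁻¹ : Aˣ) : A) ^ k * x * (τ : A) ^ k) := by
      rw [smul_eq, smul_eq]
      change _ = ((τ⁻¹ : Aˣ) : A) ^ k * d * (τ : A) ^ k * (((τ⁻¹ : Aˣ) : A) ^ k * x * (τ : A) ^ k)
      have e2 : ((τ⁻¹ : Aˣ) : A) ^ k * (d : A) * (τ : A) ^ k * (((τ⁻¹ : Aˣ) : A) ^ k * x * (τ : A) ^ k)
          = ((τ⁻¹ : Aˣ) : A) ^ k * (d : A) * ((τ : A) ^ k * ((τ⁻¹ : Aˣ) : A) ^ k) * x * (τ : A) ^ k := by
        simp only [mul_assoc]
      rw [e2, pow_mul_inv_pow, mul_one]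
      simp only [mul_assoc]
    rw [e]
    exact Submodule.smul_mem _ _ hx

theorem U_mul_pow (n k : ℕ) (x : A) (hx : x ∈ U D τ n) : x * (τ : A) ^ k ∈ U D τ (n + k) := by
  unfold U at hx
  induction hx using Submodule.span_induction with
  | mem x hx =>
    obtain ⟨i, rfl⟩ := hx
    change (τ : A) ^ (i : ℕ) * (τ : A) ^ k ∈ U D τ (n + k)
    rw [← pow_add]
    apply pow_mem_U
    have := i.2
    omega
  | zero => rw [zero_mul]; exact Submodule.zero_mem _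
  | add x y _ _ hx hy => rw [add_mul]; exact Submodule.add_mem _ hx hy
  | smul d x _ hx =>
    have e : (d • x) * (τ : A) ^ k = d • (x * (τ : A) ^ k) := by
      rw [smul_eq, smul_eq, mul_assoc]
    rw [e]
    exact Submodule.smul_mem _ _ hx

/-- the ring of skew Laurent polynomials -/
noncomputable def LS (h1 : ∀ x ∈ D, (τ : A) * x * ((τ⁻¹ : Aˣ) : A) ∈ D)
    (h2 : ∀ x ∈ D, ((τ⁻¹ : Aˣ) : A) * x * (τ : A) ∈ D) : Subring A where
  carrier := {x | ∃ n k : ℕ, x * (τ : A) ^ k ∈ U D τ n}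
  zero_mem' := ⟨0, 0, by rw [zero_mul]; exact Submodule.zero_mem _⟩
  one_mem' := ⟨1, 0, by rw [one_mul]; exact pow_mem_U D τ Nat.zero_lt_one⟩
  add_mem' := by
    rintro x y ⟨n, k, hx⟩ ⟨m, l, hy⟩
    refine ⟨(n + l) + (m + k), k + l, ?_⟩
    rw [add_mul]
    apply Submodule.add_mem
    · apply U_mono D τ (n := n + l) (by omega)
      rw [pow_add, ← mul_assoc]
      exact U_mul_pow n l _ hx
    · apply U_mono D τ (n := m + k) (by omega)
      rw [add_comm k l, pow_add, ← mul_assoc]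
      exact U_mul_pow m k _ hy
  neg_mem' := by
    rintro x ⟨n, k, hx⟩
    refine ⟨n, k, ?_⟩
    rw [neg_mul]
    exact Submodule.neg_mem _ hx
  mul_mem' := by
    rintro x y ⟨n, k, hx⟩ ⟨m, l, hy⟩
    refine ⟨n + m, l + k, ?_⟩
    have e : x * y * (τ : A) ^ (l + k)
        = (x * (τ : A) ^ k) * (((τ⁻¹ : Aˣ) : A) ^ k * (y * (τ : A) ^ l) * (τ : A) ^ k) := by
      have e2 : (x * (τ : A) ^ k) * (((τ⁻¹ : Aˣ) : A) ^ k * (y * (τ : A) ^ l) * (τ : A) ^ k)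
          = x * ((τ : A) ^ k * ((τ⁻¹ : Aˣ) : A) ^ k) * y * ((τ : A) ^ l * (τ : A) ^ k) := by
        simp only [mul_assoc]
      rw [e2, pow_mul_inv_pow, mul_one, pow_add]
    rw [e]
    exact mul_U h1 n m _ _ hx (conj_U h2 k m _ hy)

theorem mem_LS (h1 : ∀ x ∈ D, (τ : A) * x * ((τ⁻¹ : Aˣ) : A) ∈ D)
    (h2 : ∀ x ∈ D, ((τ⁻¹ : Aˣ) : A) * x * (τ : A) ∈ D) (x : A) :
    x ∈ LS h1 h2 ↔ ∃ n k : ℕ, x * (τ : A) ^ k ∈ U D τ n := Iff.rfl

theorem isUnit_of_mem (h3 : ∀ (n : ℕ) (d : Fin n → A), (∀ i, d i ∈ D) → (∃ i, d i ≠ 0) →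
      IsUnit (∑ i : Fin n, d i * (τ : A) ^ (i : ℕ))) (n : ℕ) (x : A) (hx : x ∈ U D τ n)
    (hne : x ≠ 0) : IsUnit x := by
  obtain ⟨d, hd, rfl⟩ := (mem_U_iff D τ n x).1 hx
  apply h3 n d hd
  by_contra hcon
  push Not at hcon
  apply hne
  apply Finset.sum_eq_zero
  intro i _
  rw [hcon i, zero_mul]

theorem isUnit_pow (k : ℕ) : IsUnit ((τ : A) ^ k) := (τ.isUnit).pow k

theorem ore_U [Nontrivial A]
    (h0 : ∀ x ∈ D, x ≠ 0 → ∃ y ∈ D, x * y = 1 ∧ y * x = 1)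
    (h1 : ∀ x ∈ D, (τ : A) * x * ((τ⁻¹ : Aˣ) : A) ∈ D)
    (h3 : ∀ (n : ℕ) (d : Fin n → A), (∀ i, d i ∈ D) → (∃ i, d i ≠ 0) →
      IsUnit (∑ i : Fin n, d i * (τ : A) ^ (i : ℕ))) (n : ℕ) (a b : A) (ha : a ∈ U D τ n)
    (hb : b ∈ U D τ n) (hb0 : b ≠ 0) :
    ∃ m, ∃ c ∈ U D τ m, ∃ d ∈ U D τ m, d ≠ 0 ∧ d * a = c * b := by
  classical
  have hDN : Nontrivial D := inferInstance
  letI : DivisionRing D := DivisionRing.ofIsUnitOrEqZero (R := D) (by
    intro x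
    by_cases hx : x = 0
    · right; exact hx
    · left
      have hx' : (x : A) ≠ 0 := by
        intro h
        apply hx
        exact Subtype.ext h
      obtain ⟨y, hy, e1, e2⟩ := h0 x x.2 hx'
      exact ⟨⟨x, ⟨y, hy⟩, Subtype.ext e1, Subtype.ext e2⟩, rfl⟩)
  set m := n + 1 with hm
  let v : Fin m ⊕ Fin m → A := Sum.elim (fun j => (τ : A) ^ (j : ℕ) * a) (fun j => (τ : A) ^ (j : ℕ) * b)
  have hv : ∀ i, v i ∈ U D τ (n + m) := by
    rintro (j | j)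
    · apply U_mono D τ (n := n + (j : ℕ)) (by have := j.2; omega)
      exact pow_mul_U h1 j n a ha
    · apply U_mono D τ (n := n + (j : ℕ)) (by have := j.2; omega)
      exact pow_mul_U h1 j n b hb
  have hnot : ¬ LinearIndependent D v := by
    intro hli
    have hle := linearIndependent_le_span_aux' v hli
      (Set.range fun i : Fin (n + m) => (τ : A) ^ (i : ℕ)) (by
        rintro _ ⟨i, rfl⟩
        exact hv i)
    rw [Fintype.card_sum, Fintype.card_fin] at hle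
    have hle2 := Fintype.card_le_of_surjective (Set.rangeFactorization
      fun i : Fin (n + m) => (τ : A) ^ (i : ℕ)) Set.rangeFactorization_surjective
    rw [Fintype.card_fin] at hle2
    omega
  obtain ⟨g, hg, i0, hi0⟩ := Fintype.not_linearIndependent_iff.1 hnot
  rw [Fintype.sum_sum_type] at hg
  have e1 : ∑ j : Fin m, g (Sum.inl j) • v (Sum.inl j)
      = (∑ j : Fin m, (g (Sum.inl j) : A) * (τ : A) ^ (j : ℕ)) * a := by
    rw [Finset.sum_mul]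
    apply Finset.sum_congr rfl
    intro j _
    rw [smul_eq, mul_assoc]
    rfl
  have e2 : ∑ j : Fin m, g (Sum.inr j) • v (Sum.inr j)
      = (∑ j : Fin m, (g (Sum.inr j) : A) * (τ : A) ^ (j : ℕ)) * b := by
    rw [Finset.sum_mul]
    apply Finset.sum_congr rfl
    intro j _
    rw [smul_eq, mul_assoc]
    rfl
  rw [e1, e2] at hg
  refine ⟨m, -(∑ j : Fin m, (g (Sum.inr j) : A) * (τ : A) ^ (j : ℕ)), ?_,
    ∑ j : Fin m, (g (Sum.inl j) : A) * (τ : A) ^ (j : ℕ), ?_, ?_, ?_⟩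
  · apply Submodule.neg_mem
    exact (mem_U_iff D τ m _).2 ⟨fun j => (g (Sum.inr j) : A), fun j => (g (Sum.inr j)).2, rfl⟩
  · exact (mem_U_iff D τ m _).2 ⟨fun j => (g (Sum.inl j) : A), fun j => (g (Sum.inl j)).2, rfl⟩
  · intro hd
    rw [hd, zero_mul, zero_add] at hg
    have hbu : IsUnit b := isUnit_of_mem h3 n b hb hb0
    have hc0 : (∑ j : Fin m, (g (Sum.inr j) : A) * (τ : A) ^ (j : ℕ)) = 0 := by
      have := congrArg (fun z => z * ((hbu.unit⁻¹ : Aˣ) : A)) hg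
      simp only [zero_mul, mul_assoc, IsUnit.mul_val_inv, mul_one] at this
      exact this
    rcases i0 with j | j
    · have hu := h3 m (fun j => (g (Sum.inl j) : A)) (fun j => (g (Sum.inl j)).2)
        ⟨j, fun h => hi0 (Subtype.ext h)⟩
      rw [hd] at hu
      exact not_isUnit_zero hu
    · have hu := h3 m (fun j => (g (Sum.inr j) : A)) (fun j => (g (Sum.inr j)).2)
        ⟨j, fun h => hi0 (Subtype.ext h)⟩
      rw [hc0] at hu
      exact not_isUnit_zero hu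
  · rw [neg_mul]
    exact eq_neg_of_add_eq_zero_left hg

end

theorem st_SKL : ST_SKL.{w} := by
  intro A _ _ D τ h0 h1 h2 h3
  refine ⟨LS h1 h2, ?_, ?_, ?_⟩
  · intro x
    rw [mem_LS]
    constructor
    · rintro ⟨n, k, hx⟩
      obtain ⟨d, hd, hx⟩ := (mem_U_iff D τ n _).1 hx
      refine ⟨n, d, k, hd, ?_⟩
      rw [← hx, mul_assoc, pow_mul_inv_pow, mul_one]
    · rintro ⟨n, d, k, hd, rfl⟩
      refine ⟨n, k, ?_⟩
      rw [mul_assoc, inv_pow_mul_pow, mul_one]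
      exact (mem_U_iff D τ n _).2 ⟨d, hd, rfl⟩
  · rintro x ⟨n, k, hx⟩ hne
    have hne' : x * (τ : A) ^ k ≠ 0 := by
      intro h
      apply hne
      have := congrArg (fun z => z * ((τ⁻¹ : Aˣ) : A) ^ k) h
      simp only [zero_mul, mul_assoc, pow_mul_inv_pow, mul_one] at this
      exact this
    have hu := isUnit_of_mem h3 n _ hx hne'
    have e : x = (x * (τ : A) ^ k) * ((τ⁻¹ : Aˣ) : A) ^ k := by
      rw [mul_assoc, pow_mul_inv_pow, mul_one]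
    rw [e]
    exact hu.mul ((τ⁻¹).isUnit.pow k)
  · rintro a ⟨n, k, ha⟩ b ⟨m, l, hb⟩ hb0
    have ha' : a * (τ : A) ^ (k + l) ∈ U D τ (n + l + (m + k)) := by
      apply U_mono D τ (n := n + l) (by omega)
      rw [pow_add, ← mul_assoc]
      exact U_mul_pow n l _ ha
    have hb' : b * (τ : A) ^ (k + l) ∈ U D τ (n + l + (m + k)) := by
      apply U_mono D τ (n := m + k) (by omega)
      rw [add_comm k l, pow_add, ← mul_assoc]
      exact U_mul_pow m k _ hb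
    have hb0' : b * (τ : A) ^ (k + l) ≠ 0 := by
      intro h
      apply hb0
      have := congrArg (fun z => z * ((τ⁻¹ : Aˣ) : A) ^ (k + l)) h
      simp only [zero_mul, mul_assoc, pow_mul_inv_pow, mul_one] at this
      exact this
    obtain ⟨N, c, hc, d, hd, hd0, hcd⟩ := ore_U h0 h1 h3 _ _ _ ha' hb' hb0'
    refine ⟨c, ⟨N, 0, by rw [pow_zero, mul_one]; exact hc⟩, d,
      ⟨N, 0, by rw [pow_zero, mul_one]; exact hd⟩, hd0, ?_⟩
    have := congrArg (fun z => z * ((τ⁻¹ : Aˣ) : A) ^ (k + l)) hcd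
    simp only [mul_assoc, pow_mul_inv_pow, mul_one] at this
    exact this

end LCH20
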